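import Pool.Agent.Y934.BEF.Stm
import Pool.Agent.H321R3.HermNF

/-! # Project BEF: the frame property fails over the zeros of the transform of a periodic comb
(adaptation of `Pool/Agent/H321R3/HermNF.lean`) -/

set_option autoImplicit false
open MeasureTheory Filter Topology Set

namespace Pool.Agent.Y286.BEF

open Pool.Agent.H321R3.Herm

/-- the test function -/
noncomputable def gN (c : ℤ → ℝ) (a δ : ℝ) (N : ℕ) (t : ℝ) : ℝ :=
  ∑ j ∈ Finset.Ico (0:ℤ) N, c j * (Ioc ((j:ℝ) * a) ((j:ℝ) * a + δ)).indicator (fun _ => (1:ℝ)) t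

lemma gN_memLp (c : ℤ → ℝ) (a δ : ℝ) (N : ℕ) :
    MemLp (fun t => ((gN c a δ N t : ℝ) : ℂ)) 2 volume := by
  unfold gN
  push_cast
  refine memLp_finsetSum _ fun j _ => ?_
  have h : MemLp (fun t => (Ioc ((j:ℝ) * a) ((j:ℝ) * a + δ)).indicator (fun _ => (1:ℂ)) t) 2
      volume := memLp_indicator_const 2 measurableSet_Ioc 1 (Or.inr (by simp))
  refine MemLp.const_mul ?_ _
  refine h.ae_eq (ae_of_all _ fun t => ?_)
  simp only [Set.indicator]
  split_ifs <;> simp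

lemma gN_norm (c : ℤ → ℝ) (hc : ∀ m, 0 ≤ c m) (a δ : ℝ) (hδ : 0 < δ) (N : ℕ) :
    (∑ j ∈ Finset.Ico (0:ℤ) N, c j ^ 2) * δ ≤ ∫ t : ℝ, ‖((gN c a δ N t : ℝ) : ℂ)‖ ^ 2 := by
  have h1 : Integrable (fun t => ‖((gN c a δ N t : ℝ) : ℂ)‖ ^ 2) volume :=
    (gN_memLp c a δ N).integrable_norm_pow (by norm_num)
  have hi : ∀ j : ℤ, Integrable
      (fun t => c j ^ 2 * (Ioc ((j:ℝ) * a) ((j:ℝ) * a + δ)).indicator (fun _ => (1:ℝ)) t) volume :=
    fun j => ((integrable_indicator_iff measurableSet_Ioc).2 (by simp)).const_mul _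
  have h2 : ∫ t : ℝ, ∑ j ∈ Finset.Ico (0:ℤ) N,
      c j ^ 2 * (Ioc ((j:ℝ) * a) ((j:ℝ) * a + δ)).indicator (fun _ => (1:ℝ)) t =
      (∑ j ∈ Finset.Ico (0:ℤ) N, c j ^ 2) * δ := by
    rw [integral_finsetSum _ fun j _ => hi j]
    have : ∀ j ∈ Finset.Ico (0:ℤ) N, ∫ t : ℝ,
        c j ^ 2 * (Ioc ((j:ℝ) * a) ((j:ℝ) * a + δ)).indicator (fun _ => (1:ℝ)) t = c j ^ 2 * δ := by
      intro j _
      rw [integral_const_mul, integral_indicator measurableSet_Ioc, setIntegral_const]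
      simp [hδ.le]
    rw [Finset.sum_congr rfl this, ← Finset.sum_mul]
  rw [← h2]
  refine integral_mono (integrable_finsetSum _ fun j _ => hi j) h1 fun t => ?_
  simp only
  rw [Complex.norm_real, Real.norm_eq_abs, sq_abs]
  unfold gN
  refine le_trans (le_of_eq ?_) (Finset.sum_sq_le_sq_sum_of_nonneg fun j _ => ?_)
  · refine Finset.sum_congr rfl fun j _ => ?_
    simp only [Set.indicator]
    split_ifs <;> ring
  · simp only [Set.indicator]
    have := hc j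
    split_ifs
    · linarith
    · simp

/-- the weighted sequence `c_m e^{-2πi ω m a} w(t + m a - x)` -/
noncomputable def vc (w : ℝ → ℝ) (c : ℤ → ℝ) (a x ω t : ℝ) (m : ℤ) : ℂ :=
  (c m : ℂ) * vt w a x ω t m

/-- the periodised product -/
noncomputable def Psi (w : ℝ → ℝ) (c : ℤ → ℝ) (a x ω : ℝ) (N : ℕ) (k : ℤ) (t : ℝ) : ℂ :=
  Complex.exp (-(2 * (Real.pi : ℂ) * Complex.I * (ω : ℂ) * ((t : ℂ) + (k : ℂ) * (a : ℂ)))) *
    ∑ j ∈ Finset.Ico (0:ℤ) N, vc w c a x ω t (j - k)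

lemma Psi_continuous (w : ℝ → ℝ) (hw : Continuous w) (c : ℤ → ℝ) (a x ω : ℝ) (N : ℕ) (k : ℤ) :
    Continuous (Psi w c a x ω N k) := by
  unfold Psi vc vt
  fun_prop

lemma norm_vc (w : ℝ → ℝ) (c : ℤ → ℝ) (a x ω t : ℝ) (m : ℤ) :
    ‖vc w c a x ω t m‖ = |c m| * |w (t + m * a - x)| := by
  unfold vc
  rw [norm_mul, norm_vt, Complex.norm_real, Real.norm_eq_abs]

lemma norm_Psi (w : ℝ → ℝ) (c : ℤ → ℝ) (a x ω : ℝ) (N : ℕ) (k : ℤ) (t : ℝ) :
    ‖Psi w c a x ω N k t‖ = ‖∑ j ∈ Finset.Ico (0:ℤ) N, vc w c a x ω t (j - k)‖ := by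
  unfold Psi
  rw [norm_mul, mul_assoc _ (ω : ℂ), norm_exp_neg_I (ω * (t + k * a)) _ (by push_cast; ring),
    one_mul]

/-- the lattice points -/
noncomputable def lp (q : ℕ) (a x ω : ℝ) (p : ℤ × ℤ) : ℝ × ℝ :=
  (x + p.1 * (q * a), ω + p.2 * (1 / a))

lemma coeff_formula' (w : ℝ → ℝ) (hw : Continuous w) (c : ℤ → ℝ) (q : ℕ)
    (hq : ∀ m, c (m + q) = c m) (a : ℝ) (ha : 0 < a) (δ : ℝ) (hδ : 0 < δ)
    (N : ℕ) (x ω : ℝ) (k l : ℤ) :
    ∫ t : ℝ, ((gN c a δ N t : ℝ) : ℂ) * (starRingEnd ℂ)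
      (tfShift (lp q a x ω (k, l)) (fun t => ((w t : ℝ) : ℂ)) t) =
    ∫ t in (0:ℝ)..δ,
        Complex.exp (-(2 * (Real.pi : ℂ) * Complex.I * ((l : ℂ) / (a : ℂ)) * (t : ℂ))) *
          Psi w c a x ω N (k * q) t := by
  have hane : (a : ℂ) ≠ 0 := by exact_mod_cast ha.ne'
  have hper : ∀ j : ℤ, c (j - k * q) = c j := fun j =>
    (Function.Periodic.int_mul (show Function.Periodic c (q : ℤ) from hq) k).sub_eq j
  set u : ℝ → ℂ := fun t => (starRingEnd ℂ)
      (tfShift (lp q a x ω (k, l)) (fun t => ((w t : ℝ) : ℂ)) t) with hu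
  have huc : Continuous u := by
    rw [hu]
    unfold tfShift
    fun_prop
  have h1 : ∀ t : ℝ, ((gN c a δ N t : ℝ) : ℂ) * u t = ∑ j ∈ Finset.Ico (0:ℤ) N,
      (c j : ℂ) * (Ioc ((j:ℝ) * a) ((j:ℝ) * a + δ)).indicator u t := by
    intro t
    unfold gN
    push_cast
    rw [Finset.sum_mul]
    refine Finset.sum_congr rfl fun j _ => ?_
    simp only [Set.indicator]
    split_ifs <;> simp
  have hi : ∀ j : ℤ, Integrable (fun t => (c j : ℂ) *
      (Ioc ((j:ℝ) * a) ((j:ℝ) * a + δ)).indicator u t) volume := fun j =>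
    ((integrable_indicator_iff measurableSet_Ioc).2
      (huc.integrableOn_Icc.mono_set Ioc_subset_Icc_self)).const_mul _
  show ∫ t : ℝ, ((gN c a δ N t : ℝ) : ℂ) * u t = _
  simp only [h1]
  rw [integral_finsetSum _ fun j _ => hi j]
  have h2 : ∀ j ∈ Finset.Ico (0:ℤ) N, ∫ t : ℝ, (c j : ℂ) *
      (Ioc ((j:ℝ) * a) ((j:ℝ) * a + δ)).indicator u t =
      ∫ t in (0:ℝ)..δ, (c j : ℂ) * u (t + j * a) := by
    intro j _
    rw [integral_const_mul, intervalIntegral.integral_const_mul, integral_indicator measurableSet_Ioc,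
      intervalIntegral.integral_comp_add_right, zero_add,
      add_comm δ, intervalIntegral.integral_of_le (by linarith)]
  rw [Finset.sum_congr rfl h2, ← intervalIntegral.integral_finsetSum]
  · refine intervalIntegral.integral_congr fun t _ => ?_
    unfold Psi
    rw [Finset.mul_sum, Finset.mul_sum]
    refine Finset.sum_congr rfl fun j _ => ?_
    simp only [hu, tfShift, lp, vc, vt]
    rw [hper, map_mul, Complex.conj_ofReal, ← Complex.exp_conj]
    have hw' : w (t + j * a - (x + k * (q * a))) = w (t + ((j - k * q : ℤ) : ℝ) * a - x) := by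
      congr 1
      push_cast
      ring
    rw [hw']
    have hexp : Complex.exp ((starRingEnd ℂ) (2 * (Real.pi : ℂ) * Complex.I *
        ((ω + l * (1 / a) : ℝ) : ℂ) * ((t + j * a : ℝ) : ℂ))) =
        Complex.exp (-(2 * (Real.pi : ℂ) * Complex.I * ((l : ℂ) / (a : ℂ)) * (t : ℂ))) *
        (Complex.exp (-(2 * (Real.pi : ℂ) * Complex.I * (ω : ℂ) *
          ((t : ℂ) + ((k * q : ℤ) : ℂ) * (a : ℂ)))) *
        Complex.exp (-(2 * (Real.pi : ℂ) * Complex.I * (ω : ℂ) *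
          (((j - k * q : ℤ) : ℂ) * (a : ℂ))))) := by
      rw [← Complex.exp_add, ← Complex.exp_add, Complex.exp_eq_exp_iff_exists_int]
      refine ⟨-(l * j), ?_⟩
      simp only [map_mul, Complex.conj_ofReal, Complex.conj_I, map_ofNat]
      push_cast
      field_simp
      ring
    rw [hexp]
    ring
  · intro j _
    exact (continuous_const.mul (huc.comp (by fun_prop))).intervalIntegrable _ _

lemma lp_injective (q : ℕ) (hq : 0 < q) (a x ω : ℝ) (ha : 0 < a) :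
    Function.Injective (lp q a x ω) := by
  rintro ⟨k, l⟩ ⟨k', l'⟩ h
  simp only [lp, Prod.mk.injEq, add_right_inj] at h
  have hqa : (q : ℝ) * a ≠ 0 := by positivity
  have hia : (1 / a : ℝ) ≠ 0 := by positivity
  have h1 : (k : ℝ) = k' := mul_right_cancel₀ hqa h.1
  have h2 : (l : ℝ) = l' := mul_right_cancel₀ hia h.2
  exact Prod.ext (by exact_mod_cast h1) (by exact_mod_cast h2)

lemma class_bound' (w : ℝ → ℝ) (hw : Continuous w) (c : ℤ → ℝ) (q : ℕ) (hq0 : 0 < q)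
    (hq : ∀ m, c (m + q) = c m) (a : ℝ) (ha : 0 < a) (x ω : ℝ)
    (β : ℤ → ℝ) (hv : ∀ t ∈ Icc (0:ℝ) a, ∀ m, ‖vc w c a x ω t m‖ ≤ β m) (hβ : Summable β)
    (hβ1 : Summable (fun m : ℤ => (4 * |(m : ℝ)| + 2) * β m)) (N : ℕ) (δ : ℝ) (hδ : 0 < δ)
    (hδa : δ ≤ a) (η : ℝ) (hη : ∀ t ∈ Icc (0:ℝ) δ, ‖∑' m, vc w c a x ω t m‖ ^ 2 ≤ η) :
    ∑' p : ℤ × ℤ, gaborCoeffSq (fun t => ((w t : ℝ) : ℂ)) (fun t => ((gN c a δ N t : ℝ) : ℂ))
      (lp q a x ω p) ≤ ENNReal.ofReal (a * (δ *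
        (2 * ((∑' m, β m) * (∑' m : ℤ, (4 * |(m : ℝ)| + 2) * β m)) + 2 * (N * η)))) := by
  rw [ENNReal.tsum_prod']
  have h1 : ∀ k : ℤ, ∑' l : ℤ, gaborCoeffSq (fun t => ((w t : ℝ) : ℂ))
      (fun t => ((gN c a δ N t : ℝ) : ℂ)) (lp q a x ω (k, l)) =
      ENNReal.ofReal (a * ∫ t in (0:ℝ)..δ, ‖Psi w c a x ω N (k * q) t‖ ^ 2) := by
    intro k
    have h2 := parseval_step a ha δ hδ hδa (Psi w c a x ω N (k * q))
      (Psi_continuous w hw c a x ω N (k * q))
    rw [← h2.tsum_eq, ENNReal.ofReal_tsum_of_nonneg (fun _ => by positivity) h2.summable]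
    refine tsum_congr fun l => ?_
    unfold gaborCoeffSq
    rw [coeff_formula' w hw c q hq a ha δ hδ N x ω k l]
  simp only [h1]
  rw [ENNReal.tsum_eq_iSup_sum]
  refine iSup_le fun F => ?_
  have hI : ∀ k : ℤ, 0 ≤ a * ∫ t in (0:ℝ)..δ, ‖Psi w c a x ω N (k * q) t‖ ^ 2 := fun k =>
    mul_nonneg ha.le (intervalIntegral.integral_nonneg hδ.le fun t _ => by positivity)
  rw [← ENNReal.ofReal_sum_of_nonneg fun k _ => hI k]
  apply ENNReal.ofReal_le_ofReal
  rw [← Finset.mul_sum]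
  refine mul_le_mul_of_nonneg_left ?_ ha.le
  have hcont : ∀ k : ℤ, Continuous (fun t => ‖Psi w c a x ω N (k * q) t‖ ^ 2) := fun k =>
    ((Psi_continuous w hw c a x ω N (k * q)).norm.pow 2)
  rw [← intervalIntegral.integral_finsetSum fun k _ => (hcont k).intervalIntegrable _ _]
  have h3 : ∫ t in (0:ℝ)..δ, ∑ k ∈ F, ‖Psi w c a x ω N (k * q) t‖ ^ 2 ≤ ∫ t in (0:ℝ)..δ,
      (2 * ((∑' m, β m) * (∑' m : ℤ, (4 * |(m : ℝ)| + 2) * β m)) + 2 * (N * η)) := by
    refine intervalIntegral.integral_mono_on hδ.le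
      ((continuous_finsetSum _ fun k _ => hcont k).intervalIntegrable _ _)
      (by simp) fun t ht => ?_
    simp only [norm_Psi]
    have hq1 : (q : ℤ) ≠ 0 := by exact_mod_cast hq0.ne'
    have h4 : ∑ k ∈ F, ‖∑ j ∈ Finset.Ico (0:ℤ) N, vc w c a x ω t (j - k * q)‖ ^ 2 =
        ∑ k ∈ F.image (fun k : ℤ => k * q),
          ‖∑ j ∈ Finset.Ico (0:ℤ) N, vc w c a x ω t (j - k)‖ ^ 2 := by
      rw [Finset.sum_image]
      intro k _ k' _ h
      exact mul_right_cancel₀ hq1 h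
    rw [h4]
    refine (core (vc w c a x ω t) β (hv t ⟨ht.1, ht.2.trans hδa⟩) hβ hβ1 N _).trans ?_
    have := mul_le_mul_of_nonneg_left (hη t ht) (Nat.cast_nonneg (α := ℝ) N)
    linarith
  refine h3.trans (le_of_eq ?_)
  rw [intervalIntegral.integral_const, sub_zero, smul_eq_mul]

theorem nf : Pool.Agent.Y934.BEF.NFStm := by
  intro ι _ w hw C hC a ha q hq0 c hq hc0 hc1 x ω hz0
  have hper : Function.Periodic c (q : ℤ) := hq
  have hz : ∀ i, ∑' m, vc w c a (x i) (ω i) 0 m = 0 := by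
    intro i
    rw [← hz0 i]
    unfold Pool.Agent.Y934.BEF.V vc vt
    refine tsum_congr fun m => ?_
    push_cast
    rw [zero_add]
    have : -(2 * (Real.pi : ℂ) * Complex.I * (ω i : ℂ) * ((m : ℂ) * (a : ℂ))) =
        -(2 * (Real.pi : ℂ) * Complex.I * ((ω i : ℂ) * (a : ℂ) * (m : ℂ))) := by ring
    rw [this]
    ring
  rintro ⟨A, B, hA, -, H⟩
  have hC0 : 0 ≤ C := by
    have h := hC 0
    simp only [abs_zero, add_zero, one_pow, div_one, mul_one] at h
    exact (abs_nonneg _).trans h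
  -- the weights are bounded
  obtain ⟨D, hD0, hD⟩ : ∃ D : ℝ, 0 ≤ D ∧ ∀ m, |c m| ≤ D := by
    refine ⟨∑ r ∈ Finset.range q, c r, Finset.sum_nonneg fun r _ => hc0 _, fun m => ?_⟩
    rw [abs_of_nonneg (hc0 m)]
    have hqz : (0 : ℤ) < q := by exact_mod_cast hq0
    have h1 : c m = c (m % q) := by
      have h2 := hper.int_mul (m / q) (m % q)
      have h3 : m % q + (m / q) * q = m := by
        rw [mul_comm]; exact Int.emod_add_mul_ediv m q
      rw [← h2]
      congr 1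
      exact h3.symm
    have h4 : ∃ r ∈ Finset.range q, (r : ℤ) = m % q := by
      refine ⟨(m % q).toNat, ?_, Int.toNat_of_nonneg (Int.emod_nonneg _ hqz.ne')⟩
      rw [Finset.mem_range]
      have := Int.emod_lt_of_pos m hqz
      omega
    obtain ⟨r, hr, hre⟩ := h4
    rw [h1, ← hre]
    exact Finset.single_le_sum (f := fun r : ℕ => c r) (fun r _ => hc0 _) hr
  choose e he he2 using fun i => decay_comp a ha (x i)
  set β : ι → ℤ → ℝ := fun i m => D * (C * (e i * (1 / (1 + |(m : ℝ)|) ^ 3))) with hβdef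
  have hβs : ∀ i, Summable (β i) := fun i =>
    (((summable_inv 3 (by norm_num)).mul_left (e i)).mul_left C).mul_left D
  have hβ1 : ∀ i, Summable (fun m : ℤ => (4 * |(m : ℝ)| + 2) * β i m) := by
    intro i
    refine (summable_lin.mul_left (D * (C * e i))).congr fun m => ?_
    rw [hβdef]
    ring
  have hv : ∀ i, ∀ t ∈ Icc (0:ℝ) a, ∀ m, ‖vc w c a (x i) (ω i) t m‖ ≤ β i m := by
    intro i t ht m
    rw [norm_vc]
    exact mul_le_mul (hD m) ((hC _).trans (mul_le_mul_of_nonneg_left (he2 i t ht m) hC0))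
      (abs_nonneg _) hD0
  set K : ι → ℝ := fun i => 2 * ((∑' m, β i m) * (∑' m : ℤ, (4 * |(m : ℝ)| + 2) * β i m)) with hK
  have hKnn : ∀ i, 0 ≤ K i := by
    intro i
    have hb : ∀ m, 0 ≤ β i m := fun m => by
      have := (he i).le
      positivity
    have h1 : 0 ≤ ∑' m, β i m := tsum_nonneg hb
    have h2 : 0 ≤ ∑' m : ℤ, (4 * |(m : ℝ)| + 2) * β i m :=
      tsum_nonneg fun m => mul_nonneg (by positivity) (hb m)
    positivity
  set M : ℝ := (Fintype.card ι : ℝ) with hM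
  have hM0 : 0 ≤ M := Nat.cast_nonneg _
  have hqr : (0 : ℝ) < q := by exact_mod_cast hq0
  set η : ℝ := A / (8 * a * q * (M + 1)) with hη
  have hη0 : 0 < η := by positivity
  have hZ : ∀ i, ContinuousOn (fun t => ∑' m, vc w c a (x i) (ω i) t m) (Icc 0 a) := by
    intro i
    refine continuousOn_tsum (fun m => ?_) (hβs i) (fun m t ht => hv i t ht m)
    apply Continuous.continuousOn
    unfold vc vt
    fun_prop
  have hev : ∀ᶠ t in 𝓝[Icc 0 a] (0:ℝ), ∀ i, ‖∑' m, vc w c a (x i) (ω i) t m‖ ^ 2 < η := by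
    rw [Filter.eventually_all]
    intro i
    have h1 : Tendsto (fun t => ‖∑' m, vc w c a (x i) (ω i) t m‖ ^ 2) (𝓝[Icc 0 a] (0:ℝ))
        (𝓝 0) := by
      have h2 := (((hZ i) 0 ⟨le_rfl, ha.le⟩).tendsto.norm).pow 2
      rw [hz i] at h2
      simpa using h2
    exact h1.eventually_lt_const hη0
  obtain ⟨ε, hε, hε2⟩ := Metric.mem_nhdsWithin_iff.1 hev
  set δ : ℝ := min (ε / 2) a with hδdef
  have hδ : 0 < δ := lt_min (by positivity) ha
  have hδa : δ ≤ a := min_le_right _ _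
  have hδη : ∀ t ∈ Icc (0:ℝ) δ, ∀ i, ‖∑' m, vc w c a (x i) (ω i) t m‖ ^ 2 ≤ η := by
    intro t ht i
    refine (hε2 ⟨?_, ht.1, ht.2.trans hδa⟩ i).le
    rw [Metric.mem_ball, Real.dist_eq, sub_zero, abs_of_nonneg ht.1]
    have := ht.2.trans (min_le_left _ _)
    linarith
  obtain ⟨N, hN⟩ := exists_nat_gt (2 * a * (∑ i, K i) / A)
  have hN0 : 0 ≤ (N : ℝ) := Nat.cast_nonneg _
  have hNpos : 0 < (N : ℝ) := by
    refine lt_of_le_of_lt ?_ hN
    have : 0 ≤ ∑ i, K i := Finset.sum_nonneg fun i _ => hKnn i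
    positivity
  have hfr := (H _ (gN_memLp c a δ (q * N))).1
  have hset : Pool.Agent.Y934.BEF.cos2 (q * a) (1 / a) x ω
      = ⋃ i, Set.range (lp q a (x i) (ω i)) := rfl
  have hup : ∑' γ : (Pool.Agent.Y934.BEF.cos2 (q * a) (1 / a) x ω : Set (ℝ × ℝ)),
      gaborCoeffSq (fun t => ((w t : ℝ) : ℂ))
      (fun t => ((gN c a δ (q * N) t : ℝ) : ℂ)) γ ≤
      ENNReal.ofReal (∑ i, a * (δ * (K i + 2 * (((q * N : ℕ) : ℝ) * η)))) := by
    rw [hset]
    refine (ENNReal.tsum_iUnion_le _ _).trans ?_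
    rw [ENNReal.ofReal_sum_of_nonneg]
    · refine Finset.sum_le_sum fun i _ => ?_
      rw [tsum_range (gaborCoeffSq (fun t => ((w t : ℝ) : ℂ))
        (fun t => ((gN c a δ (q * N) t : ℝ) : ℂ))) (lp_injective q hq0 a (x i) (ω i) ha)]
      exact class_bound' w hw c q hq0 hq a ha (x i) (ω i) (β i) (hv i) (hβs i) (hβ1 i) (q * N)
        δ hδ hδa η (fun t ht => hδη t ht i)
    · intro i _
      have h3 := hKnn i
      positivity
  -- lower bound
  have hcN : (N : ℝ) ≤ ∑ j ∈ Finset.Ico (0:ℤ) ((q * N : ℕ) : ℤ), c j ^ 2 := by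
    have hqz : (0 : ℤ) < q := by exact_mod_cast hq0
    have h1 : ∑ j ∈ (Finset.Ico (0:ℤ) N).image (fun k : ℤ => k * q), c j ^ 2 = (N : ℝ) := by
      rw [Finset.sum_image]
      · have : ∀ k ∈ Finset.Ico (0:ℤ) N, c (k * q) ^ 2 = 1 := by
          intro k _
          have h2 : c (0 + k * q) = c 0 := hper.int_mul k 0
          rw [zero_add] at h2
          rw [h2, hc1, one_pow]
        rw [Finset.sum_congr rfl this]
        simp
      · intro k _ k' _ h
        exact mul_right_cancel₀ hqz.ne' h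
    rw [← h1]
    refine Finset.sum_le_sum_of_subset_of_nonneg ?_ (fun j _ _ => sq_nonneg _)
    intro j hj
    rw [Finset.mem_image] at hj
    obtain ⟨k, hk, rfl⟩ := hj
    rw [Finset.mem_Ico] at hk ⊢
    refine ⟨mul_nonneg hk.1 hqz.le, ?_⟩
    push_cast
    rw [mul_comm (q : ℤ)]
    exact mul_lt_mul_of_pos_right hk.2 hqz
  have hlow : ENNReal.ofReal (A * (N * δ)) ≤ ENNReal.ofReal
      (A * ∫ t : ℝ, ‖((gN c a δ (q * N) t : ℝ) : ℂ)‖ ^ 2) :=
    ENNReal.ofReal_le_ofReal (mul_le_mul_of_nonneg_left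
      ((mul_le_mul_of_nonneg_right hcN hδ.le).trans (gN_norm c hc0 a δ hδ (q * N))) hA.le)
  have hall := (hlow.trans hfr).trans hup
  have hpos : 0 < A * (N * δ) := by positivity
  rw [ENNReal.ofReal_le_ofReal_iff'] at hall
  rcases hall with hall | hall
  · have e1 : ∑ i, a * (δ * (K i + 2 * (((q * N : ℕ) : ℝ) * η))) =
        δ * (a * (∑ i, K i) + 2 * a * (q * N) * η * M) := by
      rw [← Finset.mul_sum, ← Finset.mul_sum, Finset.sum_add_distrib, Finset.sum_const,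
        nsmul_eq_mul, Finset.card_univ, ← hM]
      push_cast
      ring
    rw [e1] at hall
    have e2 : A * N ≤ a * (∑ i, K i) + 2 * a * (q * N) * η * M := by
      have : δ * (A * N) ≤ δ * (a * (∑ i, K i) + 2 * a * (q * N) * η * M) := by linarith
      exact le_of_mul_le_mul_left this hδ
    have e3 : 2 * a * (∑ i, K i) < A * N := by
      rw [div_lt_iff₀ hA] at hN
      linarith
    have e4 : 8 * a * q * η * (M + 1) = A := by
      rw [hη]
      field_simp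
    have e5 : 2 * a * (q * N) * η * M ≤ A * N / 4 := by
      have h6 : 8 * a * q * η * M ≤ A := by
        have : 0 ≤ 8 * a * q * η := by positivity
        nlinarith
      have h7 : 2 * a * (q * N) * η * M = (8 * a * q * η * M) * N / 4 := by ring
      rw [h7]
      have := mul_le_mul_of_nonneg_right h6 hN0
      linarith
    nlinarith
  · linarith

end Pool.Agent.Y286.BEF
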